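import Mathlib
import Pool.Agent.TH841.PT.Types
import Pool.Agent.TH841.PM.Stm

/-!
# H/CONV (helper547): from the constants to the types
-/

set_option linter.unusedSectionVars false

namespace Pool.Agent.N547.H

open Finset Pool.Agent.W262.RK Pool.Agent.TH841.PT

section

variable {J : Type} [Fintype J] [DecidableEq J]

/-- the type of the prime `p` -/
def ty (κ : ℤ) (p : ℕ) : Ty := fun _ => sg0 p κ

/-- the parts of the types -/
def sp (κ : J → ℤ) (s : J → ℕ) (i : J × Ty) : ℕ :=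
  ∏ p ∈ (s i.1).primeFactors.filter (fun p => ty (κ i.1) p = i.2), p

lemma primeFactors_prod {S : Finset ℕ} (hS : ∀ p ∈ S, p.Prime) : (∏ p ∈ S, p).primeFactors = S :=
  Nat.primeFactors_prod hS

lemma sp_pf (κ : J → ℤ) (s : J → ℕ) (i : J × Ty) :
    (sp κ s i).primeFactors = (s i.1).primeFactors.filter (fun p => ty (κ i.1) p = i.2) := by
  unfold sp
  exact primeFactors_prod fun p hp => Nat.prime_of_mem_primeFactors (mem_filter.1 hp).1

lemma sp_pos (κ : J → ℤ) (s : J → ℕ) (i : J × Ty) : sp κ s i ≠ 0 := by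
  unfold sp
  exact prod_ne_zero_iff.2 fun p hp =>
    (Nat.prime_of_mem_primeFactors (mem_filter.1 hp).1).ne_zero

lemma dvd_sp {κ : J → ℤ} {s : J → ℕ} {i : J × Ty} {p : ℕ} (hp : p.Prime) (hs : s i.1 ≠ 0) :
    p ∣ sp κ s i ↔ p ∣ s i.1 ∧ ty (κ i.1) p = i.2 := by
  have h := sp_pf κ s i
  have h1 : p ∈ (sp κ s i).primeFactors ↔ p ∣ sp κ s i := by
    rw [Nat.mem_primeFactors]
    exact ⟨fun h => h.2.1, fun h => ⟨hp, h, sp_pos κ s i⟩⟩
  rw [← h1, h, mem_filter, Nat.mem_primeFactors]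
  exact ⟨fun h => ⟨h.1.2.1, h.2⟩, fun h => ⟨⟨hp, h.1, hs⟩, h.2⟩⟩

lemma sp_dvd (κ : J → ℤ) (s : J → ℕ) (i : J × Ty) : sp κ s i ∣ s i.1 := by
  unfold sp
  refine (prod_dvd_prod_of_subset _ _ _ (filter_subset _ _)).trans ?_
  exact Nat.prod_primeFactors_dvd _

lemma prod_ty {M : Type} [CommMonoid M] (κ : ℤ) (S : Finset ℕ) (f : ℕ → M) :
    ∏ θ : Ty, ∏ p ∈ S.filter (fun p => ty κ p = θ), f p = ∏ p ∈ S, f p :=
  prod_fiberwise S (ty κ) f

lemma prod_sp (κ : J → ℤ) {s : J → ℕ} (hs : ∀ j, Squarefree (s j)) (j : J) :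
    ∏ θ : Ty, sp κ s (j, θ) = s j := by
  unfold sp
  rw [prod_ty (κ j) (s j).primeFactors (fun p => p)]
  exact Nat.prod_primeFactors_of_squarefree (hs j)

lemma prod_sp' (κ : J → ℤ) {s : J → ℕ} (hs : ∀ j, Squarefree (s j)) :
    ∏ i : J × Ty, sp κ s i = ∏ j, s j := by
  rw [Fintype.prod_prod_type]
  exact prod_congr rfl fun j _ => prod_sp κ hs j

lemma PPsq (z y : ℕ) : Squarefree (PP z y) := by
  unfold PP PS
  refine (Finset.squarefree_prod_of_pairwise_isCoprime ?_ ?_)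
  · intro p hp q hq hpq
    have h1 : p.Prime := (mem_filter.1 (mem_coe.1 hp)).2
    have h2 : q.Prime := (mem_filter.1 (mem_coe.1 hq)).2
    exact Nat.isCoprime_iff_coprime.2 ((Nat.coprime_primes h1 h2).2 hpq) |> fun h => by
      simpa [Function.onFun, Nat.coprime_iff_isRelPrime] using h
  · intro p hp
    exact (mem_filter.1 hp).2.squarefree

lemma PPpf {z y p : ℕ} (hp : p.Prime) (h : p ∣ PP z y) : z < p := by
  unfold PP at h
  obtain ⟨q, hq, hpq⟩ := (Prime.dvd_finsetProd_iff hp.prime _).1 h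
  unfold PS at hq
  have h2 := (Nat.prime_dvd_prime_iff_eq hp (mem_filter.1 hq).2).1 hpq
  rw [h2]
  exact (mem_Ioc.1 (mem_filter.1 hq).1).1

lemma PPne (z y : ℕ) : PP z y ≠ 0 := (PPsq z y).ne_zero

lemma memT {ι : Type} [Fintype ι] [DecidableEq ι] {z y : ℕ} {d : ι → ℕ} :
    d ∈ Tup ι z y ↔ (∀ i, d i ∣ PP z y) ∧ ∀ i j, i ≠ j → (d i).Coprime (d j) := by
  unfold Tup
  rw [mem_filter, Fintype.mem_piFinset]
  simp only [Nat.mem_divisors]
  exact ⟨fun h => ⟨fun i => (h.1 i).1, h.2⟩, fun h => ⟨fun i => ⟨h.1 i, PPne z y⟩, h.2⟩⟩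

lemma sp_mem {z y : ℕ} (κ : J → ℤ) {s : J → ℕ} (hs : s ∈ Tup J z y) :
    sp κ s ∈ Tup (J × Ty) z y := by
  rw [memT] at hs ⊢
  refine ⟨fun i => (sp_dvd κ s i).trans (hs.1 i.1), fun i j hij => ?_⟩
  refine Nat.Coprime.symm ?_
  refine (Nat.coprime_of_dvd fun p hp h1 h2 => ?_)
  have hne : ∀ j, s j ≠ 0 := fun j h => PPne z y (Nat.eq_zero_of_zero_dvd (h ▸ hs.1 j))
  rw [dvd_sp hp (hne _)] at h1 h2
  by_cases hj : i.1 = j.1
  · have h3 : ty (κ i.1) p = i.2 := h2.2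
    have h4 : ty (κ j.1) p = j.2 := h1.2
    rw [hj] at h3
    exact hij (Prod.ext hj (h3.symm.trans h4))
  · exact Nat.not_coprime_of_dvd_of_dvd hp.one_lt h2.1 h1.1 (hs.2 _ _ hj)

lemma NL_congr {m : ℕ} {L L' : ℕ → Bool → Bool → Bool → Bool → Prop}
    (h : ∀ p ∈ m.primeFactors, ∀ v w h g, L p v w h g ↔ L' p v w h g) : NL m L = NL m L' := by
  unfold NL
  congr 1
  ext d
  simp only [mem_filter]
  exact and_congr_right fun _ => forall₂_congr fun p hp => h p hp _ _ _ _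

lemma LL_LT {c : Fin 4} (hc : c ≠ 3) (κ : ℤ) (ng : Bool) (p : ℕ) (v w h g : Bool) :
    LL c (fun _ => κ) ng p v w h g ↔ Pool.Agent.TH841.PT.LT c (ty κ p) (sg0 p (-1)) ng v w h g := by
  unfold LL Pool.Agent.TH841.PT.LT ty
  by_cases h0 : c = 0
  · simp only [if_pos h0]
  by_cases h1 : c = 1
  · simp only [if_neg h0, if_pos h1]
  by_cases h2 : c = 2
  · simp only [if_neg h0, if_neg h1, if_pos h2]
  exfalso
  revert c
  decide

lemma P3_empty {I : Type} [Fintype I] [DecidableEq I] {cls : I → Fin 4} (hc : ∀ j, cls j ≠ 3)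
    (s : I → ℕ) : P3 cls s = ∅ := by
  unfold P3
  rw [filter_false_of_mem fun j _ => hc j, prod_empty, Nat.primeFactors_one]

lemma NB_eq {cls : J → Fin 4} {κ : J → ℤ} (hc : ∀ j, cls j ≠ 3) {z y : ℕ} {s : J → ℕ}
    (hs : s ∈ Tup J z y) (k : ℕ) :
    NB cls (fun j _ => κ j) s ^ k = Pool.Agent.TH841.PM.NBK k (clsI cls) eI (sp κ s) := by
  have hs' := memT.1 hs
  have hne : ∀ j, s j ≠ 0 := fun j h => PPne z y (Nat.eq_zero_of_zero_dvd (h ▸ hs'.1 j))
  have hsq : ∀ j, Squarefree (s j) := fun j => (PPsq z y).squarefree_of_dvd (hs'.1 j)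
  unfold NB Pool.Agent.TH841.PM.NBK
  rw [P3_empty hc, P3_empty (cls := clsI cls) (fun i => hc i.1), powerset_empty, sum_singleton,
    sum_singleton, card_empty, pow_zero, one_mul, one_mul, prod_sp' κ hsq]
  congr 2
  refine NL_congr fun p hp v w h g => ?_
  have hpp := Nat.prime_of_mem_primeFactors hp
  unfold LLs LTs
  constructor
  · intro hL i hi
    rw [dvd_sp hpp (hne _)] at hi
    have h1 := (LL_LT (hc i.1) (κ i.1) _ p v w h g).1 (hL i.1 hi.1)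
    rw [hi.2] at h1
    exact h1
  · intro hL j hj
    have h1 := hL (j, ty (κ j) p) ((dvd_sp hpp (hne _)).2 ⟨hj, rfl⟩)
    exact (LL_LT (hc j) (κ j) _ p v w h g).2 h1

/-- the indicator of the type -/
noncomputable def gk (κ : J → ℤ) (z : ℕ) (i : J × Ty) (p : ℕ) : ℝ :=
  if p.Prime ∧ z < p ∧ i.2 = (fun _ => sg0 p (κ i.1)) then 1 else 0

lemma gw_eq {κ : J → ℤ} {z y : ℕ} {s : J → ℕ} (hs : s ∈ Tup J z y) (c : ℕ) :
    ∏ j, gw 1 c (s j) = ∏ i, gp (gk κ z i) c (sp κ s i) := by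
  have hs' := memT.1 hs
  rw [Fintype.prod_prod_type]
  refine prod_congr rfl fun j _ => ?_
  unfold gw gp
  simp only [sp_pf]
  rw [← prod_ty (κ j) (s j).primeFactors]
  refine prod_congr rfl fun θ _ => prod_congr rfl fun p hp => ?_
  rw [mem_filter] at hp
  have hpp := Nat.prime_of_mem_primeFactors hp.1
  have h1 : z < p := PPpf hpp ((Nat.dvd_of_mem_primeFactors hp.1).trans (hs'.1 j))
  unfold gk
  rw [if_pos ⟨hpp, h1, hp.2.symm⟩]

lemma NBK_nonneg {I : Type} [Fintype I] [DecidableEq I] (k : ℕ) (cls : I → Fin 4)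
    (e : I → Fin 3 → Bool) (s : I → ℕ) : 0 ≤ Pool.Agent.TH841.PM.NBK k cls e s := by
  unfold Pool.Agent.TH841.PM.NBK
  positivity

lemma gp_nonneg {κ : J → ℤ} {z y c : ℕ} (hc : c ≤ z) {s : J × Ty → ℕ}
    (hs : s ∈ Tup (J × Ty) z y) (i : J × Ty) : 0 ≤ gp (gk κ z i) c (s i) := by
  unfold gp
  refine prod_nonneg fun p hp => ?_
  have hpp := Nat.prime_of_mem_primeFactors hp
  have h1 : z < p := PPpf hpp ((Nat.dvd_of_mem_primeFactors hp).trans ((memT.1 hs).1 i))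
  have h2 : (c : ℝ) ≤ (p : ℝ) := by exact_mod_cast (hc.trans h1.le)
  refine div_nonneg ?_ (by linarith)
  unfold gk
  split_ifs <;> norm_num

/-- **the conversion** -/
theorem conv (cls : J → Fin 4) (κ : J → ℤ) (k c z y : ℕ) (hcl : ∀ j, cls j ≠ 3) (hc : c ≤ z) :
    ∑ s ∈ Tup J z y, NB cls (fun j _ => κ j) s ^ k * ∏ j, gw 1 c (s j) ≤
    ∑ s ∈ Tup (J × Ty) z y, Pool.Agent.TH841.PM.NBK k (clsI cls) eI s *
      ∏ i, gp (gk κ z i) c (s i) := by
  have h1 : ∑ s ∈ Tup J z y, NB cls (fun j _ => κ j) s ^ k * ∏ j, gw 1 c (s j) =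
      ∑ s ∈ (Tup J z y).image (sp κ), Pool.Agent.TH841.PM.NBK k (clsI cls) eI s *
        ∏ i, gp (gk κ z i) c (s i) := by
    rw [sum_image]
    · refine sum_congr rfl fun s hs => ?_
      rw [NB_eq hcl hs, gw_eq (κ := κ) hs]
    · intro s hs t ht hst
      have hs' := memT.1 (mem_coe.1 hs)
      have ht' := memT.1 (mem_coe.1 ht)
      funext j
      rw [← prod_sp κ (fun j => (PPsq z y).squarefree_of_dvd (hs'.1 j)) j,
        ← prod_sp κ (fun j => (PPsq z y).squarefree_of_dvd (ht'.1 j)) j]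
      exact prod_congr rfl fun θ _ => congrFun hst _
  rw [h1]
  refine sum_le_sum_of_subset_of_nonneg ?_ ?_
  · intro x hx
    obtain ⟨s, hs, rfl⟩ := mem_image.1 hx
    exact sp_mem κ hs
  · intro s hs _
    exact mul_nonneg (NBK_nonneg _ _ _ _) (prod_nonneg fun i _ => gp_nonneg hc hs i)

end

end Pool.Agent.N547.H
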