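import Mathlib
import Pool.Agent.N870.H.Stm
import Pool.Agent.N547.H.Conv0

/-!
# H/CONV (helper547)
-/

namespace Pool.Agent.N547.H

/-- H/CONV. From the constants `κ` to the types. -/
theorem t_CONV : Pool.Agent.N870.H.S_CONV :=
  fun _ _ _ cls κ k c z y hcl _ hc => Pool.Agent.N547.H.conv cls κ k c z y hcl hc

end Pool.Agent.N547.H
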